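import Mathlib
import Pool.Graph.R_pool_sql_team_seeded_63374d34.N657.QR.Defs

/-!
# Project HF (helper993), task L2 (helper263): the tail of the lattice sum in three dimensions
-/

set_option autoImplicit false

namespace Pool.Agent.H263.HF

open Filter Topology
open Pool.Agent.N657.QR (lam)

/-- `1 - cos` at a momentum -/
noncomputable def cc (L : ℕ) (m : ℝ) : ℝ := 1 - Real.cos (2 * Real.pi * m / (L : ℝ))

theorem lam_six {d L : ℕ} [NeZero L] (k : Fin d → ZMod L) :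
    lam k / 6 = ∑ i, 1 / 3 * cc L ((k i).val : ℝ) := by
  unfold lam cc
  rw [Finset.sum_div]
  refine Finset.sum_congr rfl fun i _ => ?_
  ring

theorem cc_nonneg (L : ℕ) (m : ℝ) : 0 ≤ cc L m := by
  unfold cc
  linarith [Real.cos_le_one (2 * Real.pi * m / (L : ℝ))]

theorem cc_symm {L : ℕ} (hL : 0 < L) (m : ℝ) : cc L (L - m) = cc L m := by
  have hL' : (0 : ℝ) < L := by exact_mod_cast hL
  unfold cc
  have e : 2 * Real.pi * (L - m) / (L : ℝ) = 2 * Real.pi - 2 * Real.pi * m / (L : ℝ) := by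
    field_simp
  rw [e, Real.cos_two_pi_sub]

theorem sin_low {y : ℝ} (h0 : 0 ≤ y) (h1 : y ≤ Real.pi / 4) :
    8 * y ^ 2 / Real.pi ^ 2 ≤ Real.sin y ^ 2 := by
  have hpi := Real.pi_pos
  have hc := strictConcaveOn_sin_Icc.concaveOn
  have ha : 0 ≤ 1 - 4 * y / Real.pi := by
    rw [sub_nonneg, div_le_one hpi]
    linarith
  have hb : 0 ≤ 4 * y / Real.pi := by positivity
  have hab : (1 - 4 * y / Real.pi) + 4 * y / Real.pi = 1 := by ring
  have h2 := hc.2 (⟨le_rfl, hpi.le⟩ : (0 : ℝ) ∈ Set.Icc (0 : ℝ) Real.pi)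
    (⟨by positivity, by linarith⟩ : Real.pi / 4 ∈ Set.Icc (0 : ℝ) Real.pi) ha hb hab
  simp only [smul_eq_mul, Real.sin_zero, mul_zero, zero_add] at h2
  have e : 4 * y / Real.pi * (Real.pi / 4) = y := by field_simp
  rw [e, Real.sin_pi_div_four] at h2
  have h3 : 0 ≤ 4 * y / Real.pi * (Real.sqrt 2 / 2) := by positivity
  have h4 := pow_le_pow_left₀ h3 h2 2
  have h5 : (4 * y / Real.pi * (Real.sqrt 2 / 2)) ^ 2 = 8 * y ^ 2 / Real.pi ^ 2 := by
    have h6 : Real.sqrt 2 ^ 2 = 2 := Real.sq_sqrt (by norm_num)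
    have h7 : (4 * y / Real.pi * (Real.sqrt 2 / 2)) ^ 2 =
      16 * y ^ 2 / Real.pi ^ 2 * (Real.sqrt 2 ^ 2 / 4) := by ring
    rw [h7, h6]
    ring
  rw [h5] at h4
  exact h4

theorem cc_small {L : ℕ} (hL : 0 < L) {m : ℝ} (h0 : 0 ≤ m) (h1 : 4 * m ≤ L) :
    16 * m ^ 2 / (L : ℝ) ^ 2 ≤ cc L m := by
  have hL' : (0 : ℝ) < L := by exact_mod_cast hL
  have hpi := Real.pi_pos
  have h2 := sin_low (y := Real.pi * m / L) (by positivity) (by
    rw [div_le_div_iff₀ hL' (by norm_num)]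
    nlinarith)
  have e : 2 * Real.pi * m / (L : ℝ) = 2 * (Real.pi * m / L) := by ring
  unfold cc
  rw [e, Real.cos_two_mul]
  have h3 := Real.sin_sq_add_cos_sq (Real.pi * m / L)
  have h4 : 8 * (Real.pi * m / L) ^ 2 / Real.pi ^ 2 = 8 * m ^ 2 / (L : ℝ) ^ 2 := by
    field_simp
  rw [h4] at h2
  have h5 : 16 * m ^ 2 / (L : ℝ) ^ 2 = 2 * (8 * m ^ 2 / (L : ℝ) ^ 2) := by ring
  rw [h5]
  linarith

theorem cc_big {L : ℕ} (hL : 0 < L) {m : ℝ} (h0 : L ≤ 4 * m) (h1 : 4 * m ≤ 3 * L) :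
    1 ≤ cc L m := by
  have hL' : (0 : ℝ) < L := by exact_mod_cast hL
  have hpi := Real.pi_pos
  have h2 : Real.cos (2 * Real.pi * m / (L : ℝ)) ≤ 0 := by
    apply Real.cos_nonpos_of_pi_div_two_le_of_le
    · rw [div_le_div_iff₀ (by norm_num) hL']
      nlinarith
    · rw [div_le_iff₀ hL']
      nlinarith
  unfold cc
  linarith

/-- distance to zero -/
noncomputable def mu {L : ℕ} (q : ZMod L) : ℝ := min (q.val : ℝ) ((L : ℝ) - q.val)

theorem cc_low {L : ℕ} [NeZero L] (q : ZMod L) :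
    4 * mu q ^ 2 / (L : ℝ) ^ 2 ≤ cc L (q.val : ℝ) := by
  have hL : 0 < L := Nat.pos_of_ne_zero (NeZero.ne L)
  have hL' : (0 : ℝ) < L := by exact_mod_cast hL
  have key : ∀ m : ℝ, 0 ≤ m → 2 * m ≤ L → 4 * m ^ 2 / (L : ℝ) ^ 2 ≤ cc L m := by
    intro m h0 h1
    rcases le_total (4 * m) L with h | h
    · refine le_trans ?_ (cc_small hL h0 h)
      gcongr
      norm_num
    · refine le_trans ?_ (cc_big hL h (by linarith))
      rw [div_le_one (by positivity)]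
      nlinarith
  have hv : (q.val : ℝ) ≤ L := by exact_mod_cast (ZMod.val_lt q).le
  have hv0 : (0 : ℝ) ≤ q.val := Nat.cast_nonneg _
  unfold mu
  rcases le_total (q.val : ℝ) ((L : ℝ) - q.val) with h | h
  · rw [min_eq_left h]
    exact key _ hv0 (by linarith)
  · rw [min_eq_right h, ← cc_symm hL]
    exact key _ (by linarith) (by linarith)

theorem mu_nonneg {L : ℕ} [NeZero L] (q : ZMod L) : 0 ≤ mu q := by
  have hv : (q.val : ℝ) ≤ L := by exact_mod_cast (ZMod.val_lt q).le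
  exact le_min (Nat.cast_nonneg _) (by linarith)

theorem mu_one {L : ℕ} [NeZero L] {q : ZMod L} (h : q ≠ 0) : 1 ≤ mu q := by
  have h1 : 1 ≤ q.val := by
    rw [Nat.one_le_iff_ne_zero, Ne, ZMod.val_eq_zero]
    exact h
  have h2 : q.val + 1 ≤ L := ZMod.val_lt q
  have h3 : ((q.val + 1 : ℕ) : ℝ) ≤ (L : ℝ) := by exact_mod_cast h2
  push_cast at h3
  refine le_min (by exact_mod_cast h1) (by linarith)

theorem mu_zero {L : ℕ} [NeZero L] : mu (0 : ZMod L) = 0 := by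
  unfold mu
  rw [ZMod.val_zero]
  simp

theorem sum_val {L : ℕ} [NeZero L] (F : ℕ → ℝ) :
    ∑ t : ZMod L, F t.val = ∑ m ∈ Finset.range L, F m := by
  refine Finset.sum_nbij' (fun t => t.val) (fun m => (m : ZMod L)) ?_ ?_ ?_ ?_ ?_
  · intro t _
    exact Finset.mem_range.2 (ZMod.val_lt t)
  · intro m _
    exact Finset.mem_univ _
  · intro t _
    exact ZMod.natCast_zmod_val t
  · intro m hm
    exact ZMod.val_cast_of_lt (Finset.mem_range.1 hm)
  · intro t _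
    rfl

/-! ### One coordinate -/

theorem gauss_sum {b : ℝ} (hb : 0 < b) (n : ℕ) :
    ∑ i ∈ Finset.range n, Real.exp (-b * ((i : ℝ) + 1) ^ 2) ≤ Real.sqrt (Real.pi / b) / 2 := by
  have hanti : AntitoneOn (fun x : ℝ => Real.exp (-b * x ^ 2)) (Set.Icc (0 : ℝ) (0 + (n : ℝ))) := by
    intro x hx y hy hxy
    have hx0 : 0 ≤ x := hx.1
    apply Real.exp_le_exp.2
    have : x ^ 2 ≤ y ^ 2 := pow_le_pow_left₀ hx0 hxy 2
    nlinarith
  have h1 := hanti.sum_le_integral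
  have h2 : (∫ x in (0 : ℝ)..(0 + (n : ℝ)), Real.exp (-b * x ^ 2)) ≤
      ∫ x in Set.Ioi (0 : ℝ), Real.exp (-b * x ^ 2) := by
    rw [intervalIntegral.integral_of_le (by positivity)]
    apply MeasureTheory.setIntegral_mono_set
    · exact (integrable_exp_neg_mul_sq hb).integrableOn
    · exact Filter.Eventually.of_forall fun x => (Real.exp_pos _).le
    · exact (Set.Ioc_subset_Ioi_self).eventuallyLE
  rw [integral_gaussian_Ioi] at h2
  refine le_trans (le_of_eq ?_) (h1.trans h2)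
  refine Finset.sum_congr rfl fun i _ => ?_
  push_cast
  simp

theorem count_mid (L : ℕ) :
    (((Finset.range L).filter (fun m => L < 4 * m ∧ 4 * m < 3 * L)).card : ℝ) ≤ L / 2 + 1 := by
  have h1 : ((Finset.range L).filter (fun m => L < 4 * m ∧ 4 * m < 3 * L)) ⊆
      Finset.Icc (L / 4 + 1) (3 * L / 4) := by
    intro m hm
    rw [Finset.mem_filter] at hm
    rw [Finset.mem_Icc]
    omega
  have h2 := Finset.card_le_card h1
  rw [Nat.card_Icc] at h2
  have h3 : 2 * ((Finset.range L).filter (fun m => L < 4 * m ∧ 4 * m < 3 * L)).card ≤ L + 2 := by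
    omega
  have h4 : (2 : ℝ) * (((Finset.range L).filter (fun m => L < 4 * m ∧ 4 * m < 3 * L)).card : ℝ) ≤
      L + 2 := by exact_mod_cast h3
  linarith

/-- the sum over one coordinate -/
noncomputable def A1 (L : ℕ) [NeZero L] (r : ℝ) : ℝ :=
  ∑ q ∈ (Finset.univ : Finset (ZMod L)).erase 0, Real.exp (-r * cc L (q.val : ℝ))

theorem A1_nonneg (L : ℕ) [NeZero L] (r : ℝ) : 0 ≤ A1 L r :=
  Finset.sum_nonneg fun _ _ => (Real.exp_pos _).le

theorem A1_le {L : ℕ} [NeZero L] {r : ℝ} (hr : 0 < r) :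
    A1 L r ≤ L * (Real.sqrt Real.pi / (4 * Real.sqrt r)) + (L / 2 + 1) * Real.exp (-r) := by
  have hL : 0 < L := Nat.pos_of_ne_zero (NeZero.ne L)
  have hL' : (0 : ℝ) < L := by exact_mod_cast hL
  obtain ⟨b, hb⟩ : ∃ b : ℝ, b = 16 * r / (L : ℝ) ^ 2 := ⟨_, rfl⟩
  have hb0 : 0 < b := by rw [hb]; positivity
  have hsqrt : Real.sqrt (Real.pi / b) = L * (Real.sqrt Real.pi / (4 * Real.sqrt r)) := by
    have e : Real.pi / b = ((L : ℝ) / 4) ^ 2 * (Real.pi / r) := by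
      rw [hb]
      field_simp
      ring
    rw [e, Real.sqrt_mul (by positivity), Real.sqrt_sq (by positivity),
      Real.sqrt_div Real.pi_pos.le]
    field_simp
  -- pointwise
  have hpt : ∀ m ∈ (Finset.range L).erase 0, Real.exp (-r * cc L (m : ℝ)) ≤
      Real.exp (-b * (m : ℝ) ^ 2) + Real.exp (-b * ((L : ℝ) - m) ^ 2) +
        (if L < 4 * m ∧ 4 * m < 3 * L then Real.exp (-r) else 0) := by
    intro m hm
    have hmL : m < L := Finset.mem_range.1 (Finset.mem_of_mem_erase hm)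
    have e1 := Real.exp_pos (-b * (m : ℝ) ^ 2)
    have e2 := Real.exp_pos (-b * ((L : ℝ) - m) ^ 2)
    have e3 := Real.exp_pos (-r)
    have hmr : (0 : ℝ) ≤ m := Nat.cast_nonneg _
    have hmL' : (m : ℝ) ≤ L := by exact_mod_cast hmL.le
    by_cases h1 : 4 * m ≤ L
    · have h1' : 4 * (m : ℝ) ≤ L := by exact_mod_cast h1
      have h2 := cc_small hL hmr h1'
      have h3 : Real.exp (-r * cc L (m : ℝ)) ≤ Real.exp (-b * (m : ℝ) ^ 2) := by
        apply Real.exp_le_exp.2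
        have h4 : b * (m : ℝ) ^ 2 = r * (16 * (m : ℝ) ^ 2 / (L : ℝ) ^ 2) := by rw [hb]; ring
        have h5 := mul_le_mul_of_nonneg_left h2 hr.le
        rw [← h4] at h5
        linarith
      rw [if_neg (by omega)]
      linarith
    · by_cases h2 : 4 * m < 3 * L
      · rw [if_pos ⟨by omega, h2⟩]
        have h3 := cc_big (m := (m : ℝ)) hL (by exact_mod_cast (by omega : L ≤ 4 * m))
          (by exact_mod_cast h2.le)
        have h4 : Real.exp (-r * cc L (m : ℝ)) ≤ Real.exp (-r) := by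
          apply Real.exp_le_exp.2
          nlinarith
        linarith
      · rw [if_neg (by omega)]
        have h1' : 3 * (L : ℝ) ≤ 4 * (m : ℝ) := by exact_mod_cast not_lt.1 h2
        have h3 := cc_small (m := (L : ℝ) - m) hL (by linarith) (by linarith)
        rw [cc_symm hL] at h3
        have h4 : Real.exp (-r * cc L (m : ℝ)) ≤ Real.exp (-b * ((L : ℝ) - m) ^ 2) := by
          apply Real.exp_le_exp.2
          have h4 : b * ((L : ℝ) - m) ^ 2 = r * (16 * ((L : ℝ) - m) ^ 2 / (L : ℝ) ^ 2) := by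
            rw [hb]; ring
          have h5 := mul_le_mul_of_nonneg_left h3 hr.le
          rw [← h4] at h5
          linarith
        linarith
  have hsum : A1 L r = ∑ m ∈ (Finset.range L).erase 0, Real.exp (-r * cc L (m : ℝ)) := by
    unfold A1
    have h1 := sum_val (L := L) (fun m => Real.exp (-r * cc L (m : ℝ)))
    rw [← Finset.add_sum_erase _ _ (Finset.mem_univ (0 : ZMod L)),
      ← Finset.add_sum_erase _ _ (Finset.mem_range.2 hL), ZMod.val_zero] at h1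
    exact add_left_cancel h1
  rw [hsum]
  refine (Finset.sum_le_sum hpt).trans ?_
  rw [Finset.sum_add_distrib, Finset.sum_add_distrib]
  obtain ⟨n, rfl⟩ : ∃ n, L = n + 1 := ⟨L - 1, by omega⟩
  have herase : ∀ F : ℕ → ℝ, ∑ m ∈ (Finset.range (n + 1)).erase 0, F m =
      ∑ i ∈ Finset.range n, F (i + 1) := by
    intro F
    have h1 := Finset.sum_range_succ' F n
    rw [← Finset.add_sum_erase _ _ (Finset.mem_range.2 hL)] at h1
    linarith
  have hg1 : ∑ m ∈ (Finset.range (n + 1)).erase 0, Real.exp (-b * (m : ℝ) ^ 2) ≤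
      Real.sqrt (Real.pi / b) / 2 := by
    rw [herase (fun m => Real.exp (-b * (m : ℝ) ^ 2))]
    push_cast
    exact gauss_sum hb0 n
  have hg2 : ∑ m ∈ (Finset.range (n + 1)).erase 0,
      Real.exp (-b * (((n + 1 : ℕ) : ℝ) - m) ^ 2) ≤ Real.sqrt (Real.pi / b) / 2 := by
    rw [herase (fun m => Real.exp (-b * (((n + 1 : ℕ) : ℝ) - m) ^ 2)),
      ← Finset.sum_range_reflect]
    refine le_trans (le_of_eq ?_) (gauss_sum hb0 n)
    refine Finset.sum_congr rfl fun i hi => ?_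
    have hi' := Finset.mem_range.1 hi
    congr 2
    have e : ((n - 1 - i + 1 : ℕ) : ℝ) = (n : ℝ) - i := by
      have : n - 1 - i + 1 = n - i := by omega
      rw [this, Nat.cast_sub hi'.le]
    rw [e]
    push_cast
    ring
  have hg3 : ∑ m ∈ (Finset.range (n + 1)).erase 0,
      (if n + 1 < 4 * m ∧ 4 * m < 3 * (n + 1) then Real.exp (-r) else 0) ≤
      (((n + 1 : ℕ) : ℝ) / 2 + 1) * Real.exp (-r) := by
    refine le_trans (Finset.sum_le_sum_of_subset_of_nonneg (Finset.erase_subset _ _) ?_) ?_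
    · intro m _ _
      split_ifs
      · exact (Real.exp_pos _).le
      · exact le_rfl
    · rw [← Finset.sum_filter, Finset.sum_const, nsmul_eq_mul]
      exact mul_le_mul_of_nonneg_right (count_mid (n + 1)) (Real.exp_pos _).le
  rw [← hsqrt]
  linarith

/-! ### Three coordinates, all different from zero -/

/-- the momenta with all coordinates different from zero -/
abbrev K1 (L : ℕ) [NeZero L] : Finset (Fin 3 → ZMod L) :=
  Fintype.piFinset fun _ => (Finset.univ : Finset (ZMod L)).erase 0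

theorem sum_K1 (L : ℕ) [NeZero L] (t : ℝ) :
    ∑ k ∈ K1 L, Real.exp (-t * (lam k / 6)) = A1 L (t / 3) ^ 3 := by
  have h1 := Finset.prod_univ_sum (fun _ : Fin 3 => (Finset.univ : Finset (ZMod L)).erase 0)
    (fun _ q => Real.exp (-(t / 3) * cc L (q.val : ℝ)))
  rw [Finset.prod_const, Finset.card_univ, Fintype.card_fin] at h1
  unfold A1
  rw [h1]
  refine Finset.sum_congr rfl fun k _ => ?_
  rw [← Real.exp_sum, lam_six, Finset.mul_sum]
  congr 1
  refine Finset.sum_congr rfl fun i _ => ?_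
  ring

theorem s_low {L : ℕ} [NeZero L] (k : Fin 3 → ZMod L) (i : Fin 3) :
    4 / 3 * mu (k i) ^ 2 / (L : ℝ) ^ 2 ≤ lam k / 6 := by
  rw [lam_six]
  have h1 : 1 / 3 * cc L ((k i).val : ℝ) ≤ ∑ i, 1 / 3 * cc L ((k i).val : ℝ) :=
    Finset.single_le_sum (f := fun i => 1 / 3 * cc L ((k i).val : ℝ))
      (fun j _ => by have := cc_nonneg L ((k j).val : ℝ); positivity) (Finset.mem_univ i)
  have h2 := cc_low (k i)
  have h3 : 4 / 3 * mu (k i) ^ 2 / (L : ℝ) ^ 2 = 1 / 3 * (4 * mu (k i) ^ 2 / (L : ℝ) ^ 2) := by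
    ring
  rw [h3]
  linarith

theorem s_pos {L : ℕ} [NeZero L] {k : Fin 3 → ZMod L} {i : Fin 3} (h : k i ≠ 0) :
    0 < lam k / 6 := by
  have hL : 0 < L := Nat.pos_of_ne_zero (NeZero.ne L)
  have hL' : (0 : ℝ) < L := by exact_mod_cast hL
  have h1 := mu_one h
  refine lt_of_lt_of_le ?_ (s_low k i)
  positivity

theorem exp_bd : Real.exp (-(7 / 3)) ≤ 0.098 := by
  have h1 : (10.21 : ℝ) ≤ Real.exp (7 / 3) := by
    have h2 : (10.21 : ℝ) ^ 3 ≤ Real.exp (7 / 3) ^ 3 := by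
      rw [← Real.exp_nat_mul]
      have h3 : ((3 : ℕ) : ℝ) * (7 / 3) = ((7 : ℕ) : ℝ) * 1 := by norm_num
      rw [h3, Real.exp_nat_mul]
      have h4 := Real.exp_one_gt_d9
      have h5 : (2.7182818283 : ℝ) ^ 7 ≤ Real.exp 1 ^ 7 := pow_le_pow_left₀ (by norm_num) h4.le 7
      refine le_trans ?_ h5
      norm_num
    exact le_of_pow_le_pow_left₀ (by norm_num) (Real.exp_pos _).le h2
  rw [Real.exp_neg, inv_le_comm₀ (Real.exp_pos _) (by norm_num)]
  refine le_trans ?_ h1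
  norm_num

theorem cube_bd {z y : ℝ} (hz1 : z ≤ 0.378) (hz2 : z ^ 2 ≤ 1 / 7) (hy : 0 ≤ y)
    (hy1 : y ≤ 0.098) :
    (0.768 * z + 0.51 * y) ^ 3 ≤ 0.768 ^ 3 * z ^ 3 + 0.1525 * y := by
  have h1 : (0.768 * z + 0.51 * y) ^ 3 = 0.768 ^ 3 * z ^ 3 +
      y * (3 * 0.768 ^ 2 * 0.51 * z ^ 2 + 3 * 0.768 * 0.51 ^ 2 * (z * y) + 0.51 ^ 3 * y ^ 2) := by
    ring
  have h2 : z * y ≤ 0.378 * 0.098 := mul_le_mul hz1 hy1 hy (by norm_num)
  have h3 : y ^ 2 ≤ 0.098 ^ 2 := pow_le_pow_left₀ hy hy1 2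
  have h4 : 3 * 0.768 ^ 2 * 0.51 * z ^ 2 + 3 * 0.768 * 0.51 ^ 2 * (z * y) + 0.51 ^ 3 * y ^ 2 ≤
      0.1525 := by
    norm_num at h2 h3 ⊢
    linarith
  rw [h1]
  have h5 := mul_le_mul_of_nonneg_left h4 hy
  linarith

theorem A1_bd {L : ℕ} [NeZero L] (hL : 100 ≤ L) {t : ℝ} (ht : 0 < t) :
    A1 L (t / 3) ≤ L * (0.768 * (Real.sqrt t)⁻¹ + 0.51 * Real.exp (-(t / 3))) := by
  have hL' : (100 : ℝ) ≤ L := by exact_mod_cast hL
  have h1 := A1_le (L := L) (r := t / 3) (by positivity)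
  have h2 : Real.sqrt Real.pi / (4 * Real.sqrt (t / 3)) ≤ 0.768 * (Real.sqrt t)⁻¹ := by
    have e : Real.sqrt (t / 3) = Real.sqrt t / Real.sqrt 3 := Real.sqrt_div ht.le 3
    have ht' : 0 < Real.sqrt t := Real.sqrt_pos.2 ht
    have h3' : 0 < Real.sqrt 3 := Real.sqrt_pos.2 (by norm_num)
    have h4 : Real.sqrt Real.pi * Real.sqrt 3 ≤ 3.072 := by
      rw [← Real.sqrt_mul Real.pi_pos.le]
      rw [Real.sqrt_le_left (by norm_num)]
      have := Real.pi_lt_d4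
      norm_num at this ⊢
      linarith
    rw [e]
    have h5 : Real.sqrt Real.pi / (4 * (Real.sqrt t / Real.sqrt 3)) =
        (Real.sqrt Real.pi * Real.sqrt 3 / 4) * (Real.sqrt t)⁻¹ := by
      field_simp
    rw [h5]
    apply mul_le_mul_of_nonneg_right _ (by positivity)
    linarith
  have h3 : ((L : ℝ) / 2 + 1) * Real.exp (-(t / 3)) ≤ L * (0.51 * Real.exp (-(t / 3))) := by
    rw [← mul_assoc]
    apply mul_le_mul_of_nonneg_right _ (Real.exp_pos _).le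
    linarith
  have h4 := mul_le_mul_of_nonneg_left h2 (by positivity : (0 : ℝ) ≤ L)
  rw [mul_add]
  linarith

/-- the comparison function -/
noncomputable def Phi (L : ℕ) [NeZero L] (t : ℝ) : ℝ :=
  (∑ k ∈ K1 L, Real.exp (-t * (lam k / 6)) / (lam k / 6)) -
    (L : ℝ) ^ 3 * (2 * 0.768 ^ 3 * (Real.sqrt t)⁻¹ + 3 * 0.1525 * Real.exp (-(t / 3)))

theorem mem_K1 {L : ℕ} [NeZero L] {k : Fin 3 → ZMod L} : k ∈ K1 L ↔ ∀ i, k i ≠ 0 := by
  rw [Fintype.mem_piFinset]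
  simp

theorem Phi_deriv {L : ℕ} [NeZero L] {t : ℝ} (ht : 0 < t) :
    HasDerivAt (Phi L) (-(A1 L (t / 3) ^ 3) + (L : ℝ) ^ 3 * (0.768 ^ 3 * (Real.sqrt t)⁻¹ ^ 3 +
      0.1525 * Real.exp (-(t / 3)))) t := by
  have h1 : HasDerivAt (fun t : ℝ => ∑ k ∈ K1 L, Real.exp (-t * (lam k / 6)) / (lam k / 6))
      (∑ k ∈ K1 L, -Real.exp (-t * (lam k / 6))) t := by
    apply HasDerivAt.fun_sum
    intro k hk
    have hs : 0 < lam k / 6 := s_pos (i := 0) (mem_K1.1 hk 0)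
    have h2 : HasDerivAt (fun t : ℝ => -t * (lam k / 6)) (-1 * (lam k / 6)) t :=
      ((hasDerivAt_id t).neg).mul_const _
    have h3 := (h2.exp).div_const (lam k / 6)
    have e : Real.exp (-t * (lam k / 6)) * (-1 * (lam k / 6)) / (lam k / 6) =
        -Real.exp (-t * (lam k / 6)) := by
      rw [neg_one_mul, mul_neg, neg_div, mul_div_assoc, div_self hs.ne', mul_one]
    rwa [e] at h3
  have h4 : HasDerivAt (fun t : ℝ => (Real.sqrt t)⁻¹)
      (-(1 / (2 * Real.sqrt t)) / Real.sqrt t ^ 2) t :=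
    (Real.hasDerivAt_sqrt ht.ne').inv (Real.sqrt_pos.2 ht).ne'
  have h5 : HasDerivAt (fun t : ℝ => Real.exp (-(t / 3))) (Real.exp (-(t / 3)) * (-(1 / 3))) t :=
    (((hasDerivAt_id t).div_const 3).neg).exp
  have h6 := h1.sub (((h4.const_mul (2 * 0.768 ^ 3)).add
    (h5.const_mul (3 * 0.1525))).const_mul ((L : ℝ) ^ 3))
  have e : (∑ k ∈ K1 L, -Real.exp (-t * (lam k / 6))) - (L : ℝ) ^ 3 *
      (2 * 0.768 ^ 3 * (-(1 / (2 * Real.sqrt t)) / Real.sqrt t ^ 2) +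
        3 * 0.1525 * (Real.exp (-(t / 3)) * (-(1 / 3)))) =
      -(A1 L (t / 3) ^ 3) + (L : ℝ) ^ 3 * (0.768 ^ 3 * (Real.sqrt t)⁻¹ ^ 3 +
      0.1525 * Real.exp (-(t / 3))) := by
    rw [Finset.sum_neg_distrib, sum_K1]
    have hs : 0 < Real.sqrt t := Real.sqrt_pos.2 ht
    field_simp
    ring
  rw [e] at h6
  exact h6

theorem Phi_tendsto (L : ℕ) [NeZero L] : Tendsto (Phi L) atTop (𝓝 0) := by
  have h1 : Tendsto (fun t : ℝ => ∑ k ∈ K1 L, Real.exp (-t * (lam k / 6)) / (lam k / 6)) atTop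
      (𝓝 (∑ k ∈ K1 L, 0 / (lam k / 6))) := by
    apply tendsto_finsetSum
    intro k hk
    have hs : 0 < lam k / 6 := s_pos (i := 0) (mem_K1.1 hk 0)
    apply Tendsto.div_const
    apply Real.tendsto_exp_atBot.comp
    have h2 : Tendsto (fun t : ℝ => -(t * (lam k / 6))) atTop atBot :=
      tendsto_neg_atTop_atBot.comp (tendsto_id.atTop_mul_const hs)
    refine h2.congr fun t => ?_
    ring
  have h3 : Tendsto (fun t : ℝ => (Real.sqrt t)⁻¹) atTop (𝓝 0) :=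
    tendsto_inv_atTop_zero.comp Real.tendsto_sqrt_atTop
  have h4 : Tendsto (fun t : ℝ => Real.exp (-(t / 3))) atTop (𝓝 0) := by
    apply Real.tendsto_exp_neg_atTop_nhds_zero.comp
    exact tendsto_id.atTop_div_const (by norm_num)
  have h5 := h1.sub (((h3.const_mul (2 * 0.768 ^ 3)).add
    (h4.const_mul (3 * 0.1525))).const_mul ((L : ℝ) ^ 3))
  have e : (∑ k ∈ K1 L, (0 : ℝ) / (lam k / 6)) - (L : ℝ) ^ 3 *
      (2 * 0.768 ^ 3 * 0 + 3 * 0.1525 * 0) = 0 := by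
    simp
  rw [e] at h5
  exact h5

theorem main_K1 {L : ℕ} [NeZero L] (hL : 100 ≤ L) :
    ∑ k ∈ K1 L, Real.exp (-7 * (lam k / 6)) / (lam k / 6) ≤ 0.3875 * (L : ℝ) ^ 3 := by
  have hL' : (100 : ℝ) ≤ L := by exact_mod_cast hL
  have hmono : MonotoneOn (Phi L) (Set.Ici 7) := by
    apply monotoneOn_of_deriv_nonneg (convex_Ici 7)
    · intro t ht
      have ht' : (0 : ℝ) < t := lt_of_lt_of_le (by norm_num) (Set.mem_Ici.1 ht)
      exact (Phi_deriv ht').continuousAt.continuousWithinAt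
    · intro t ht
      rw [interior_Ici] at ht
      have ht' : (0 : ℝ) < t := lt_trans (by norm_num) (Set.mem_Ioi.1 ht)
      exact (Phi_deriv ht').differentiableAt.differentiableWithinAt
    · intro t ht
      rw [interior_Ici] at ht
      have ht7 : (7 : ℝ) < t := Set.mem_Ioi.1 ht
      have ht' : (0 : ℝ) < t := lt_trans (by norm_num) ht7
      rw [(Phi_deriv ht').deriv]
      have hs : 0 < Real.sqrt t := Real.sqrt_pos.2 ht'
      have hz2 : (Real.sqrt t)⁻¹ ^ 2 ≤ 1 / 7 := by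
        rw [inv_pow, Real.sq_sqrt ht'.le, ← one_div]
        exact one_div_le_one_div_of_le (by norm_num) ht7.le
      have hz1 : (Real.sqrt t)⁻¹ ≤ 0.378 := by
        refine le_of_pow_le_pow_left₀ (n := 2) (by norm_num) (by norm_num) (hz2.trans ?_)
        norm_num
      have hy1 : Real.exp (-(t / 3)) ≤ 0.098 := by
        refine le_trans (Real.exp_le_exp.2 ?_) exp_bd
        linarith
      have h1 := A1_bd hL ht'
      have h2 := pow_le_pow_left₀ (A1_nonneg L (t / 3)) h1 3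
      have h3 := cube_bd hz1 hz2 (Real.exp_pos (-(t / 3))).le hy1
      have h4 := mul_le_mul_of_nonneg_left h3 (by positivity : (0 : ℝ) ≤ (L : ℝ) ^ 3)
      rw [mul_pow] at h2
      linarith
  have h0 : Phi L 7 ≤ 0 := by
    refine ge_of_tendsto (Phi_tendsto L) ?_
    filter_upwards [eventually_ge_atTop (7 : ℝ)] with t ht
    exact hmono (Set.mem_Ici.2 le_rfl) (Set.mem_Ici.2 ht) ht
  unfold Phi at h0
  have hz : (Real.sqrt 7)⁻¹ ≤ 0.378 := by
    have hz2 : (Real.sqrt 7)⁻¹ ^ 2 ≤ 0.378 ^ 2 := by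
      rw [inv_pow, Real.sq_sqrt (by norm_num)]
      norm_num
    exact le_of_pow_le_pow_left₀ (n := 2) (by norm_num) (by norm_num) hz2
  have h5 : 2 * 0.768 ^ 3 * (Real.sqrt 7)⁻¹ + 3 * 0.1525 * Real.exp (-(7 / 3)) ≤ 0.3875 := by
    have := exp_bd
    norm_num at this hz ⊢
    linarith
  have h6 := mul_le_mul_of_nonneg_left h5 (by positivity : (0 : ℝ) ≤ (L : ℝ) ^ 3)
  linarith

/-! ### The other momenta -/

theorem E_pt {L : ℕ} [NeZero L] {k : Fin 3 → ZMod L} (hk : k ≠ 0) (h0 : ∃ i, k i = 0) :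
    Real.exp (-7 * (lam k / 6)) / (lam k / 6) ≤ 3 * (L : ℝ) ^ 2 * ∏ i, (1 + mu (k i))⁻¹ := by
  have hL : 0 < L := Nat.pos_of_ne_zero (NeZero.ne L)
  have hL' : (0 : ℝ) < L := by exact_mod_cast hL
  obtain ⟨i1, -, hi1⟩ := Finset.exists_max_image (Finset.univ : Finset (Fin 3))
    (fun i => mu (k i)) ⟨0, Finset.mem_univ _⟩
  obtain ⟨j, hj⟩ : ∃ j, k j ≠ 0 := by
    by_contra hcon
    push Not at hcon
    exact hk (funext hcon)
  have hM1 : 1 ≤ mu (k i1) := (mu_one hj).trans (hi1 j (Finset.mem_univ _))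
  obtain ⟨M, hM⟩ : ∃ M, M = mu (k i1) := ⟨_, rfl⟩
  rw [← hM] at hM1
  have hle : ∀ i, mu (k i) ≤ M := fun i => hM ▸ hi1 i (Finset.mem_univ _)
  have hnn : ∀ i, 0 ≤ mu (k i) := fun i => mu_nonneg _
  have hs := s_low k i1
  rw [← hM] at hs
  have hs0 : 0 < 4 / 3 * M ^ 2 / (L : ℝ) ^ 2 := by positivity
  have hsp : 0 < lam k / 6 := lt_of_lt_of_le hs0 hs
  have h1 : Real.exp (-7 * (lam k / 6)) ≤ 1 := by
    rw [Real.exp_le_one_iff]
    linarith
  have h2 : Real.exp (-7 * (lam k / 6)) / (lam k / 6) ≤ 1 / (4 / 3 * M ^ 2 / (L : ℝ) ^ 2) :=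
    div_le_div₀ zero_le_one h1 hs0 hs
  refine h2.trans ?_
  have hprod : ∏ i, (1 + mu (k i)) ≤ (2 * M) ^ 2 := by
    rw [Fin.prod_univ_three]
    have a0 := hle 0
    have a1 := hle 1
    have a2 := hle 2
    have b0 := hnn 0
    have b1 := hnn 1
    have b2 := hnn 2
    obtain ⟨i, hi⟩ := h0
    have hi' : mu (k i) = 0 := by rw [hi, mu_zero]
    fin_cases i
    · have hi2 : mu (k 0) = 0 := hi'
      rw [hi2]
      have : (1 + mu (k 1)) * (1 + mu (k 2)) ≤ (2 * M) * (2 * M) := by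
        apply mul_le_mul <;> linarith
      nlinarith
    · have hi2 : mu (k 1) = 0 := hi'
      rw [hi2]
      have : (1 + mu (k 0)) * (1 + mu (k 2)) ≤ (2 * M) * (2 * M) := by
        apply mul_le_mul <;> linarith
      nlinarith
    · have hi2 : mu (k 2) = 0 := hi'
      rw [hi2]
      have : (1 + mu (k 0)) * (1 + mu (k 1)) ≤ (2 * M) * (2 * M) := by
        apply mul_le_mul <;> linarith
      nlinarith
  have hpos : 0 < ∏ i, (1 + mu (k i)) := Finset.prod_pos fun i _ => by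
    have := hnn i
    linarith
  rw [Finset.prod_inv_distrib]
  have h3 : ((2 * M) ^ 2)⁻¹ ≤ (∏ i, (1 + mu (k i)))⁻¹ := inv_anti₀ hpos hprod
  have h4 := mul_le_mul_of_nonneg_left h3 (by positivity : (0 : ℝ) ≤ 3 * (L : ℝ) ^ 2)
  refine le_trans (le_of_eq ?_) h4
  field_simp
  ring

theorem sum_mu_inv (L : ℕ) [NeZero L] :
    ∑ q : ZMod L, (1 + mu q)⁻¹ ≤ 2 * (1 + Real.log L) := by
  have hH := harmonic_le_one_add_log L
  have hH' : ((harmonic L : ℚ) : ℝ) = ∑ i ∈ Finset.range L, ((i : ℝ) + 1)⁻¹ := by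
    unfold harmonic
    push_cast
    rfl
  rw [hH'] at hH
  have h1 : ∀ t : ZMod L, (1 + mu t)⁻¹ ≤
      ((t.val : ℝ) + 1)⁻¹ + (((L - 1 - t.val : ℕ) : ℝ) + 1)⁻¹ := by
    intro t
    have hlt := ZMod.val_lt t
    have e : ((L - 1 - t.val : ℕ) : ℝ) = (L : ℝ) - 1 - t.val := by
      rw [Nat.cast_sub (by omega), Nat.cast_sub (by omega)]
      push_cast
      ring
    have hv0 : (0 : ℝ) ≤ t.val := Nat.cast_nonneg _
    have hv1 : (t.val : ℝ) + 1 ≤ L := by exact_mod_cast hlt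
    unfold mu
    rcases le_total (t.val : ℝ) ((L : ℝ) - t.val) with h | h
    · rw [min_eq_left h, add_comm (1 : ℝ)]
      have : 0 ≤ (((L - 1 - t.val : ℕ) : ℝ) + 1)⁻¹ := by positivity
      linarith
    · rw [min_eq_right h, e]
      have h2 : 0 ≤ ((t.val : ℝ) + 1)⁻¹ := by positivity
      have h3 : (1 + ((L : ℝ) - t.val))⁻¹ ≤ ((L : ℝ) - 1 - t.val + 1)⁻¹ :=
        inv_anti₀ (by linarith) (by linarith)
      linarith
  calc ∑ t : ZMod L, (1 + mu t)⁻¹ ≤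
        ∑ t : ZMod L, (((t.val : ℝ) + 1)⁻¹ + (((L - 1 - t.val : ℕ) : ℝ) + 1)⁻¹) :=
          Finset.sum_le_sum fun t _ => h1 t
    _ = ∑ m ∈ Finset.range L, ((m : ℝ) + 1)⁻¹ +
          ∑ m ∈ Finset.range L, (((L - 1 - m : ℕ) : ℝ) + 1)⁻¹ := by
        rw [Finset.sum_add_distrib, sum_val (fun m => ((m : ℝ) + 1)⁻¹),
          sum_val (fun m => (((L - 1 - m : ℕ) : ℝ) + 1)⁻¹)]
    _ = ∑ m ∈ Finset.range L, ((m : ℝ) + 1)⁻¹ + ∑ m ∈ Finset.range L, ((m : ℝ) + 1)⁻¹ := by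
        rw [Finset.sum_range_reflect (fun m => ((m : ℝ) + 1)⁻¹) L]
    _ ≤ 2 * (1 + Real.log L) := by linarith

theorem E_sum (L : ℕ) [NeZero L] :
    ∑ k ∈ ((Finset.univ : Finset (Fin 3 → ZMod L)).erase 0) \ K1 L,
      Real.exp (-7 * (lam k / 6)) / (lam k / 6) ≤
      3 * (L : ℝ) ^ 2 * (2 * (1 + Real.log L)) ^ 3 := by
  have hnn : ∀ q : ZMod L, 0 ≤ (1 + mu q)⁻¹ := fun q => by
    have := mu_nonneg q
    positivity
  have h1 : ∑ k ∈ ((Finset.univ : Finset (Fin 3 → ZMod L)).erase 0) \ K1 L,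
      Real.exp (-7 * (lam k / 6)) / (lam k / 6) ≤
      ∑ k ∈ ((Finset.univ : Finset (Fin 3 → ZMod L)).erase 0) \ K1 L,
        3 * (L : ℝ) ^ 2 * ∏ i, (1 + mu (k i))⁻¹ := by
    apply Finset.sum_le_sum
    intro k hk
    rw [Finset.mem_sdiff, Finset.mem_erase, mem_K1] at hk
    obtain ⟨⟨hk0, -⟩, hk1⟩ := hk
    push Not at hk1
    exact E_pt hk0 hk1
  have h2 : ∑ k ∈ ((Finset.univ : Finset (Fin 3 → ZMod L)).erase 0) \ K1 L,
        3 * (L : ℝ) ^ 2 * ∏ i, (1 + mu (k i))⁻¹ ≤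
      ∑ k : Fin 3 → ZMod L, 3 * (L : ℝ) ^ 2 * ∏ i, (1 + mu (k i))⁻¹ := by
    apply Finset.sum_le_sum_of_subset_of_nonneg (Finset.subset_univ _)
    intro k _ _
    have := Finset.prod_nonneg (s := Finset.univ) (f := fun i => (1 + mu (k i))⁻¹)
      (fun i _ => hnn (k i))
    positivity
  have h3 : ∑ k : Fin 3 → ZMod L, ∏ i, (1 + mu (k i))⁻¹ = (∑ q : ZMod L, (1 + mu q)⁻¹) ^ 3 := by
    have h4 := Finset.prod_univ_sum (fun _ : Fin 3 => (Finset.univ : Finset (ZMod L)))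
      (fun _ q => (1 + mu q)⁻¹)
    rw [Finset.prod_const, Finset.card_univ, Fintype.card_fin, Fintype.piFinset_univ] at h4
    exact h4.symm
  rw [← Finset.mul_sum (Finset.univ : Finset (Fin 3 → ZMod L)), h3] at h2
  refine h1.trans (h2.trans ?_)
  apply mul_le_mul_of_nonneg_left _ (by positivity)
  exact pow_le_pow_left₀ (Finset.sum_nonneg fun q _ => hnn q) (sum_mu_inv L) 3

theorem log_bd : ∃ L₀ : ℕ, ∀ L : ℕ, L₀ ≤ L →
    3 * (L : ℝ) ^ 2 * (2 * (1 + Real.log L)) ^ 3 ≤ 0.0125 * (L : ℝ) ^ 3 := by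
  have h1 := Real.tendsto_pow_log_div_mul_add_atTop 1 0 3 one_ne_zero
  have h2 : ∀ᶠ x : ℝ in atTop, Real.log x ^ 3 / (1 * x + 0) < 0.0125 / 192 := by
    exact (h1.eventually (gt_mem_nhds (by norm_num)))
  have h3 : ∀ᶠ x : ℝ in atTop, 1 ≤ Real.log x :=
    Real.tendsto_log_atTop.eventually (eventually_ge_atTop 1)
  have h4 : ∀ᶠ n : ℕ in atTop, Real.log (n : ℝ) ^ 3 / (1 * (n : ℝ) + 0) < 0.0125 / 192 ∧
      1 ≤ Real.log (n : ℝ) ∧ 1 ≤ n := by
    have h5 := tendsto_natCast_atTop_atTop (R := ℝ)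
    filter_upwards [h5.eventually h2, h5.eventually h3, eventually_ge_atTop 1] with n a b c
    exact ⟨a, b, c⟩
  obtain ⟨L₀, hL₀⟩ := eventually_atTop.1 h4
  refine ⟨L₀, fun L hL => ?_⟩
  obtain ⟨a, b, c⟩ := hL₀ L hL
  have hLpos : (0 : ℝ) < L := by exact_mod_cast c
  rw [one_mul, add_zero, div_lt_iff₀ hLpos] at a
  have h6 : (2 * (1 + Real.log L)) ^ 3 ≤ (4 * Real.log L) ^ 3 := by
    apply pow_le_pow_left₀ (by linarith)
    linarith
  calc 3 * (L : ℝ) ^ 2 * (2 * (1 + Real.log L)) ^ 3 ≤ 3 * (L : ℝ) ^ 2 * (4 * Real.log L) ^ 3 :=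
        mul_le_mul_of_nonneg_left h6 (by positivity)
    _ = 192 * (L : ℝ) ^ 2 * Real.log L ^ 3 := by ring
    _ ≤ 192 * (L : ℝ) ^ 2 * (0.0125 / 192 * L) :=
        mul_le_mul_of_nonneg_left a.le (by positivity)
    _ = 0.0125 * (L : ℝ) ^ 3 := by ring

theorem task_tail : ∃ L₀ : ℕ, ∀ (L : ℕ) [NeZero L], L₀ ≤ L →
    ∑ k ∈ (Finset.univ : Finset (Fin 3 → ZMod L)).erase 0,
      Real.exp (-7 * (lam k / 6)) / (lam k / 6) ≤ 2 / 5 * (L:ℝ) ^ 3 := by
  obtain ⟨L₀, hL₀⟩ := log_bd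
  refine ⟨max L₀ 100, fun L _ hL => ?_⟩
  have h1 := hL₀ L ((le_max_left _ _).trans hL)
  have h2 := main_K1 (L := L) ((le_max_right _ _).trans hL)
  have h3 := E_sum L
  have hsub : K1 L ⊆ (Finset.univ : Finset (Fin 3 → ZMod L)).erase 0 := by
    intro k hk
    rw [Finset.mem_erase]
    refine ⟨?_, Finset.mem_univ _⟩
    intro h0
    exact mem_K1.1 hk 0 (congrFun h0 0)
  rw [← Finset.sum_sdiff hsub]
  have h4 : (2 : ℝ) / 5 * (L : ℝ) ^ 3 = 0.0125 * (L : ℝ) ^ 3 + 0.3875 * (L : ℝ) ^ 3 := by ring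
  rw [h4]
  linarith

end Pool.Agent.H263.HF
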